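import Mathlib
import Pool.Agent.Helper429.PT.Free

/-!
# Pro-p groups of matrices, varieties of pro-p groups, and the group `Γ_p`
-/

set_option autoImplicit false

namespace Pool.Agent.H45R2.MatVar

open Pool.Agent.Helper429.PT
open scoped PowerSeries.WithPiTopology

/-- `G` is a pro-p group of `n × n` matrices: a pro-p group which is topologically isomorphic to a
closed subgroup of `GL_n(R)` for some commutative profinite ring `R`, where `GL_n(R)` carries the
topology induced from the `n × n` matrices over `R`. -/
def IsMatrixProP (p n : ℕ) (G : Type) [Group G] [TopologicalSpace G] [IsTopologicalGroup G] :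
    Prop :=
  IsProP p G ∧ ∃ (R : Type) (_ : CommRing R) (_ : TopologicalSpace R) (_ : IsTopologicalRing R)
    (_ : CompactSpace R) (_ : T2Space R) (_ : TotallyDisconnectedSpace R)
    (ρ : G →* GL (Fin n) R),
    Topology.IsClosedEmbedding
      (fun g : G => ((ρ g : GL (Fin n) R) : Matrix (Fin n) (Fin n) R))

/-- `H` lies in the variety of pro-p groups generated by `G`: it lies in every variety of pro-p
groups that contains `G`. -/
def InVar (p : ℕ) (G : Type) [Group G] [TopologicalSpace G] [IsTopologicalGroup G]
    (H : Type) [Group H] [TopologicalSpace H] [IsTopologicalGroup H] : Prop :=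
  ∀ V : Variety.{0} p, V.mem G → V.mem H

/-- the matrix with rows `(1, t)` and `(0, 1)` over the power series over the field with `p`
elements -/
noncomputable def upper (p : ℕ) : Matrix.SpecialLinearGroup (Fin 2) (PowerSeries (ZMod p)) :=
  ⟨!![1, PowerSeries.X; 0, 1], by simp⟩

/-- the matrix with rows `(1, 0)` and `(t, 1)` -/
noncomputable def lower (p : ℕ) : Matrix.SpecialLinearGroup (Fin 2) (PowerSeries (ZMod p)) :=
  ⟨!![1, 0; PowerSeries.X, 1], by simp⟩

/-- The group `Γ_p`: the closure of the subgroup of `SL₂` of the power series ring over the field
with `p` elements generated by the two matrices above.  The power series carry the topology of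
coefficientwise convergence, that is the `t`-adic topology. -/
noncomputable def GammaP (p : ℕ) :
    Subgroup (Matrix.SpecialLinearGroup (Fin 2) (PowerSeries (ZMod p))) :=
  (Subgroup.closure {upper p, lower p}).topologicalClosure

end Pool.Agent.H45R2.MatVar
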