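import Pool.Agent.H45R2.MatVar.Defs

/-!
# `Γ_p` does not satisfy the law `x ^ (p ^ m) = 1`
-/

set_option autoImplicit false

namespace Pool.Agent.H45R2.MatVar

open PowerSeries
open scoped PowerSeries.WithPiTopology

theorem gamma_pow {p : ℕ} (hp : p.Prime) (m : ℕ) : (upper p * lower p) ^ (p ^ m) ≠ 1 := by
  have : Fact p.Prime := ⟨hp⟩
  intro h
  set g := upper p * lower p with hg
  have e1 : (g.1 : Matrix (Fin 2) (Fin 2) (PowerSeries (ZMod p))) =
      !![1 + X ^ 2, X; X, 1] := by
    rw [hg]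
    change (upper p).1 * (lower p).1 = _
    rw [upper, lower]
    ext1 i j
    fin_cases i <;> fin_cases j <;> simp [Matrix.mul_apply, Fin.sum_univ_two, pow_two]
  have e2 : ((g⁻¹).1 : Matrix (Fin 2) (Fin 2) (PowerSeries (ZMod p))) =
      !![1, -X; -X, 1 + X ^ 2] := by
    change (g.1).adjugate = _
    rw [e1, Matrix.adjugate_fin_two]
    simp
  have hpw : ∀ (x : Matrix.SpecialLinearGroup (Fin 2) (PowerSeries (ZMod p))) (k : ℕ),
      (x ^ k).1 = x.1 ^ k := by
    intro x k
    induction k with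
    | zero => rfl
    | succ k ih => rw [pow_succ, pow_succ, ← ih]; rfl
  have hcomm : Commute g.1 (g⁻¹).1 := by
    have h1 : g.1 * (g⁻¹).1 = (g * g⁻¹).1 := rfl
    have h2 : (g⁻¹).1 * g.1 = (g⁻¹ * g).1 := rfl
    rw [Commute, SemiconjBy, h1, h2, mul_inv_cancel, inv_mul_cancel]
  have hsum : g.1 + (g⁻¹).1 = (2 + X ^ 2 : PowerSeries (ZMod p)) • 1 := by
    rw [e1, e2]
    ext1 i j
    fin_cases i <;> fin_cases j <;> simp <;> ring
  have : CharP (PowerSeries (ZMod p)) p := by
    apply charP_of_injective_algebraMap (R := ZMod p)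
    exact (algebraMap (ZMod p) (PowerSeries (ZMod p))).injective
  have : CharP (Matrix (Fin 2) (Fin 2) (PowerSeries (ZMod p))) p := Matrix.charP p
  have h1 := add_pow_char_pow_of_commute (n := m) hcomm (p := p)
  have h2 : (g⁻¹) ^ (p ^ m) = 1 := by rw [inv_pow, h, inv_one]
  rw [← hpw, ← hpw, h, h2, hsum, smul_pow, one_pow, add_pow_char_pow, ← pow_mul] at h1
  have h3 : (2 : PowerSeries (ZMod p)) ^ p ^ m = 2 := by
    have : (2 : PowerSeries (ZMod p)) = C 2 := by
      rw [map_ofNat]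
    rw [this, ← map_pow, ZMod.pow_card_pow]
  rw [h3] at h1
  have h4 := congrFun (congrFun h1 0) 0
  simp only [Matrix.smul_apply, Matrix.one_apply_eq, smul_eq_mul, mul_one, Matrix.add_apply] at h4
  have h5 : ((1 : Matrix.SpecialLinearGroup (Fin 2) (PowerSeries (ZMod p))).1 : Matrix _ _ _) 0 0 =
      (1 : PowerSeries (ZMod p)) := by
    change (1 : Matrix (Fin 2) (Fin 2) (PowerSeries (ZMod p))) 0 0 = 1
    simp
  rw [h5] at h4
  have h6 : (X : PowerSeries (ZMod p)) ^ (2 * p ^ m) = 0 := by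
    linear_combination h4
  exact pow_ne_zero _ X_ne_zero h6

theorem mem_gamma (p : ℕ) : upper p * lower p ∈ GammaP p := by
  apply Subgroup.le_topologicalClosure
  exact mul_mem (Subgroup.subset_closure (by simp)) (Subgroup.subset_closure (by simp))

end Pool.Agent.H45R2.MatVar
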