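import Pool.Agent.H45R2.MatVar.Defs

/-!
# A non-soluble pro-p group of `n × n` matrices of finite exponent
-/

set_option autoImplicit false

namespace Pool.Agent.H45R2.MatVar

open Pool.Agent.Helper429.PT

/-- Finite local rings whose radical consists of elements with `u ^ p = 0`, together with a list
of `N` elements of the radical with nonzero product. -/
structure Dat (p N : ℕ) where
  /-- the ring -/
  B : Type
  /-- commutative ring -/
  inst : CommRing B
  fin : Finite B
  char : (p : B) = 0
  /-- the residue map -/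
  aug : B →+* ZMod p
  pow : ∀ u, aug u = 0 → u ^ p = 0
  /-- the elements -/
  l : List B
  len : l.length = N
  mem : ∀ x ∈ l, aug x = 0
  ne : l.prod ≠ 0

theorem exists_dat {p : ℕ} (hp : p.Prime) : ∀ N, Nonempty (Dat p N) := by
  intro N
  have : Fact p.Prime := ⟨hp⟩
  induction N with
  | zero =>
    exact ⟨{ B := ZMod p
             inst := inferInstance
             fin := inferInstance
             char := by simp
             aug := RingHom.id _
             pow := fun u hu => by
               have : u = 0 := hu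
               rw [this, zero_pow hp.ne_zero]
             l := []
             len := rfl
             mem := by simp
             ne := by simp }⟩
  | succ N ih =>
    obtain ⟨D⟩ := ih
    let _ := D.inst
    have hfin := D.fin
    have hchar := D.char
    refine ⟨{ B := DualNumber D.B
              inst := inferInstance
              fin := ?_
              char := ?_
              aug := D.aug.comp (TrivSqZeroExt.fstHom D.B D.B D.B).toRingHom
              pow := ?_
              l := D.l.map (TrivSqZeroExt.inlHom D.B D.B) ++ [DualNumber.eps]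
              len := ?_
              mem := ?_
              ne := ?_ }⟩
    · exact inferInstanceAs (Finite (D.B × D.B))
    · have h1 : (TrivSqZeroExt.inl (p : D.B) : DualNumber D.B) = (p : DualNumber D.B) :=
        TrivSqZeroExt.inl_natCast p
      rw [← h1, hchar]; rfl
    · intro u hu
      have h1 : D.aug u.fst = 0 := hu
      have h2 := D.pow _ h1
      apply TrivSqZeroExt.ext
      · rw [TrivSqZeroExt.fst_pow, h2]; rfl
      · rw [TrivSqZeroExt.snd_pow]
        have : (p : D.B) • (u.fst ^ p.pred • u.snd) = 0 := by rw [hchar, zero_smul]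
        rw [Nat.cast_smul_eq_nsmul] at this
        exact this
    · simp [D.len]
    · intro x hx
      rw [List.mem_append, List.mem_map, List.mem_singleton] at hx
      rcases hx with ⟨y, hy, rfl⟩ | rfl
      · change D.aug y = 0
        exact D.mem y hy
      · change D.aug 0 = 0
        exact map_zero _
    · rw [List.prod_append, List.prod_singleton, ← map_list_prod]
      intro h
      have h2 := congrArg TrivSqZeroExt.snd h
      rw [TrivSqZeroExt.snd_mul] at h2
      simp at h2
      exact D.ne h2

section ring

variable {p : ℕ} (hp : p.Prime)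

/-- chosen data -/
noncomputable def dat (N : ℕ) : Dat p N := (exists_dat hp N).some

noncomputable instance (N : ℕ) : CommRing (dat hp N).B := (dat hp N).inst
instance (N : ℕ) : Finite (dat hp N).B := (dat hp N).fin
instance (N : ℕ) : TopologicalSpace (dat hp N).B := ⊥
instance (N : ℕ) : DiscreteTopology (dat hp N).B := ⟨rfl⟩

/-- the profinite ring -/
abbrev RR : Type := ∀ N : ℕ, (dat hp N).B

/-- the residue maps -/
noncomputable def au (N : ℕ) : RR hp →+* ZMod p := (dat hp N).aug.comp (Pi.evalRingHom _ N)

theorem pow_eq_zero {u : RR hp} (hu : ∀ N, au hp N u = 0) : u ^ p = 0 := by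
  funext N
  exact (dat hp N).pow _ (hu N)

theorem charRR : CharP (RR hp) p := by
  have h0 : (p : RR hp) = 0 := by
    funext N
    exact (dat hp N).char
  have hn : Nontrivial (RR hp) := by
    refine ⟨0, 1, fun h => ?_⟩
    have h1 := congrFun h 0
    apply (dat hp 0).ne
    calc (dat hp 0).l.prod = (dat hp 0).l.prod * 1 := by rw [mul_one]
      _ = (dat hp 0).l.prod * 0 := by
          congr 1; exact h1.symm
      _ = 0 := mul_zero _
  exact (CharP.charP_iff_prime_eq_zero hp).2 h0

theorem entries_pow {n : ℕ} (A : Matrix (Fin n) (Fin n) (RR hp))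
    (hA : ∀ N i j, au hp N (A i j) = 0) : A ^ (n * p) = 0 := by
  have : Fact p.Prime := ⟨hp⟩
  have := charRR hp
  set χ := A.charpoly with hχ
  set P := χ - Polynomial.X ^ n with hP
  have hco : ∀ k N, au hp N (P.coeff k) = 0 := by
    intro k N
    have h1 : (A.map (au hp N)) = 0 := by
      ext i j; exact hA N i j
    have h2 : χ.map (au hp N) = Polynomial.X ^ n := by
      rw [hχ, ← Matrix.charpoly_map, h1]
      simp
    have h3 : P.map (au hp N) = 0 := by
      rw [hP, Polynomial.map_sub, h2, Polynomial.map_pow, Polynomial.map_X, sub_self]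
    have h4 := congrArg (fun q => Polynomial.coeff q k) h3
    simpa [Polynomial.coeff_map] using h4
  have hPp : P ^ p = 0 := by
    rw [← Polynomial.map_frobenius_expand p]
    apply Polynomial.ext
    intro k
    rw [Polynomial.coeff_map, Polynomial.coeff_expand hp.pos, Polynomial.coeff_zero]
    split_ifs
    · rw [frobenius_def]
      exact pow_eq_zero hp (hco _)
    · exact map_zero _
  have h5 : Polynomial.aeval A P = -(A ^ n) := by
    rw [hP, map_sub, hχ, Matrix.aeval_self_charpoly, map_pow, Polynomial.aeval_X, zero_sub]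
  have h6 := congrArg (Polynomial.aeval A) hPp
  rw [map_pow, h5, map_zero, neg_pow, ← pow_mul] at h6
  rcases neg_one_pow_eq_or (Matrix (Fin n) (Fin n) (RR hp)) p with h7 | h7
  · rwa [h7, one_mul] at h6
  · rwa [h7, neg_one_mul, neg_eq_zero] at h6

/-- the congruence subgroup -/
noncomputable def KK (n : ℕ) : Subgroup (GL (Fin n) (RR hp)) where
  carrier := {g | ∀ N i j, au hp N ((g : Matrix (Fin n) (Fin n) (RR hp)) i j) =
    (1 : Matrix (Fin n) (Fin n) (ZMod p)) i j}
  one_mem' := by
    intro N i j
    rw [Units.val_one, Matrix.one_apply, Matrix.one_apply]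
    split_ifs
    · exact map_one _
    · exact map_zero _
  mul_mem' := by
    intro a b ha hb N i j
    rw [Units.val_mul, Matrix.mul_apply, map_sum]
    simp_rw [map_mul, ha N, hb N]
    rw [← Matrix.mul_apply, one_mul]
  inv_mem' := by
    intro a ha N i j
    have h1 : (Matrix.GeneralLinearGroup.map (n := Fin n) (au hp N) a) = 1 := by
      ext i j
      rw [Matrix.GeneralLinearGroup.map_apply]
      exact ha N i j
    have h2 : (Matrix.GeneralLinearGroup.map (n := Fin n) (au hp N) a⁻¹) = 1 := by
      rw [map_inv, h1, inv_one]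
    have h3 : (Matrix.GeneralLinearGroup.map (n := Fin n) (au hp N) a⁻¹) i j =
        (1 : Matrix (Fin n) (Fin n) (ZMod p)) i j := by rw [h2]; rfl
    rw [Matrix.GeneralLinearGroup.map_apply] at h3
    exact h3

theorem exponent {n : ℕ} (hn : 3 ≤ n) (g : KK hp n) : g ^ (p ^ n) = 1 := by
  have : Fact p.Prime := ⟨hp⟩
  have := charRR hp
  have : Nonempty (Fin n) := ⟨⟨0, by omega⟩⟩
  have : CharP (Matrix (Fin n) (Fin n) (RR hp)) p := Matrix.charP p
  set A : Matrix (Fin n) (Fin n) (RR hp) := (g.1 : Matrix (Fin n) (Fin n) (RR hp)) - 1 with hA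
  have h1 : A ^ (n * p) = 0 := by
    apply entries_pow
    intro N i j
    rw [hA, Matrix.sub_apply, map_sub, g.2 N i j, Matrix.one_apply, Matrix.one_apply]
    split_ifs
    · rw [map_one, sub_self]
    · rw [map_zero, sub_self]
  have h2 : A ^ (p ^ n) = 0 := by
    apply pow_eq_zero_of_le _ h1
    obtain ⟨k, rfl⟩ : ∃ k, n = k + 1 := ⟨n - 1, by omega⟩
    rw [pow_succ]
    apply Nat.mul_le_mul_right
    exact Nat.lt_pow_self hp.one_lt
  have h3 : (g.1 : Matrix (Fin n) (Fin n) (RR hp)) = 1 + A := by rw [hA]; abel
  apply Subtype.ext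
  apply Units.ext
  rw [Subgroup.coe_pow, Units.val_pow_eq_pow_val, h3,
    add_pow_char_pow_of_commute p n (Commute.one_left A), one_pow, h2, add_zero]
  rfl

/-! ### topology -/

instance : CompactSpace (RR hp) := inferInstance
instance : T2Space (RR hp) := inferInstance
instance : TotallyDisconnectedSpace (RR hp) := inferInstance

theorem compact_mat (n : ℕ) : CompactSpace (Matrix (Fin n) (Fin n) (RR hp)) :=
  inferInstanceAs (CompactSpace (Fin n → Fin n → RR hp))

theorem compact_units {M : Type} [Monoid M] [TopologicalSpace M] [ContinuousMul M] [T1Space M]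
    [CompactSpace M] : CompactSpace Mˣ :=
  (Units.isClosedEmbedding_embedProduct (α := M)).compactSpace

theorem compact_GL' (n : ℕ) {R : Type} [CommRing R] [TopologicalSpace R] [IsTopologicalRing R]
    [T1Space R] [CompactSpace (Matrix (Fin n) (Fin n) R)] : CompactSpace (GL (Fin n) R) :=
  have : T1Space (Matrix (Fin n) (Fin n) R) := inferInstanceAs (T1Space (Fin n → Fin n → R))
  compact_units

theorem compact_GL (n : ℕ) : CompactSpace (GL (Fin n) (RR hp)) := by
  have := compact_mat hp n
  exact compact_GL' n

theorem continuous_entry (n N : ℕ) (i j : Fin n) :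
    Continuous fun g : GL (Fin n) (RR hp) => (g : Matrix (Fin n) (Fin n) (RR hp)) i j N := by
  have h1 : Continuous fun g : GL (Fin n) (RR hp) => (g : Matrix (Fin n) (Fin n) (RR hp)) :=
    Units.continuous_val
  have h2 : Continuous fun M : Matrix (Fin n) (Fin n) (RR hp) => M i j :=
    continuous_id.matrix_elem i j
  exact (continuous_apply N).comp (h2.comp h1)

theorem isClosed_KK (n : ℕ) : IsClosed (KK hp n : Set (GL (Fin n) (RR hp))) := by
  have h : (KK hp n : Set (GL (Fin n) (RR hp))) = ⋂ N, ⋂ i, ⋂ j,
      (fun g : GL (Fin n) (RR hp) => (g : Matrix (Fin n) (Fin n) (RR hp)) i j N) ⁻¹'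
        {x | (dat hp N).aug x = (1 : Matrix (Fin n) (Fin n) (ZMod p)) i j} := by
    ext g
    simp only [Set.mem_iInter]
    rfl
  rw [h]
  exact isClosed_iInter fun N => isClosed_iInter fun i => isClosed_iInter fun j =>
    (isClosed_discrete _).preimage (continuous_entry hp n N i j)

theorem continuous_val_KK (n : ℕ) :
    Continuous fun g : KK hp n => ((g.1 : GL (Fin n) (RR hp)) : Matrix (Fin n) (Fin n) (RR hp)) :=
  Units.continuous_val.comp continuous_subtype_val

theorem injective_val_KK (n : ℕ) : Function.Injective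
    fun g : KK hp n => ((g.1 : GL (Fin n) (RR hp)) : Matrix (Fin n) (Fin n) (RR hp)) :=
  fun _ _ h => Subtype.ext (Units.ext h)

theorem compact_KK (n : ℕ) : CompactSpace (KK hp n) := by
  have := compact_GL hp n
  exact isCompact_iff_compactSpace.1 (isClosed_KK hp n).isCompact

theorem isProP_KK {n : ℕ} (hn : 3 ≤ n) : IsProP p (KK hp n) := by
  have := compact_KK hp n
  refine ⟨this, inferInstance, ⟨?_⟩, ?_⟩
  · apply isTotallyDisconnected_of_image (f := fun g : KK hp n =>
      ((g.1 : GL (Fin n) (RR hp)) : Matrix (Fin n) (Fin n) (RR hp)))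
      (continuous_val_KK hp n).continuousOn (injective_val_KK hp n)
    have h : TotallyDisconnectedSpace (Matrix (Fin n) (Fin n) (RR hp)) :=
      inferInstanceAs (TotallyDisconnectedSpace (Fin n → Fin n → RR hp))
    exact isTotallyDisconnected_of_totallyDisconnectedSpace _
  · intro N hN hNo
    have h1 : N.FiniteIndex := by
      have h2 : Finite (KK hp n ⧸ N) := Subgroup.quotient_finite_of_isOpen N hNo
      exact Subgroup.finiteIndex_of_finite_quotient
    have h2 : IsPGroup p (KK hp n ⧸ N) := by
      intro x
      refine ⟨n, ?_⟩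
      obtain ⟨g, rfl⟩ := QuotientGroup.mk_surjective x
      rw [← QuotientGroup.mk_pow, exponent hp hn g, QuotientGroup.mk_one]
    have : Fact p.Prime := ⟨hp⟩
    obtain ⟨k, hk⟩ := (IsPGroup.iff_card).1 h2
    exact ⟨k, hk⟩

/-! ### non-solubility -/

theorem single_comm {n : ℕ} {r s t : Fin n} (hrs : r ≠ s) (hrt : r ≠ t) (hts : t ≠ s)
    (a b : RR hp) :
    (1 + Matrix.single r t a) * (1 + Matrix.single t s b) * (1 - Matrix.single r t a) *
      (1 - Matrix.single t s b) = 1 + Matrix.single r s (a * b) := by
  have hxx : Matrix.single r t a * Matrix.single r t a = 0 :=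
    Matrix.single_mul_single_of_ne _ _ _ _ (Ne.symm hrt) _
  have hyy : Matrix.single t s b * Matrix.single t s b = 0 :=
    Matrix.single_mul_single_of_ne _ _ _ _ (Ne.symm hts) _
  have hyx : Matrix.single t s b * Matrix.single r t a = 0 :=
    Matrix.single_mul_single_of_ne _ _ _ _ (Ne.symm hrs) _
  have hxy : Matrix.single r t a * Matrix.single t s b = Matrix.single r s (a * b) :=
    Matrix.single_mul_single_same _ _ _ _ _
  rw [← hxy]
  generalize Matrix.single r t a = x at *
  generalize Matrix.single t s b = y at *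
  have h1 : (1 + x) * (1 + y) * (1 - x) = 1 + y + x * y := by
    have : (1 + x) * (1 + y) * (1 - x) = 1 + y + x * y - x * x - y * x - x * (y * x) := by
      noncomm_ring
    rw [this, hxx, hyx, mul_zero, sub_zero, sub_zero, sub_zero]
  rw [h1]
  have : (1 + y + x * y) * (1 - y) = 1 + x * y - y * y - x * (y * y) := by noncomm_ring
  rw [this, hyy, mul_zero, sub_zero, sub_zero]

/-- elementary matrices -/
noncomputable def el {n : ℕ} {r s : Fin n} (h : r ≠ s) (a : RR hp) : GL (Fin n) (RR hp) where
  val := 1 + Matrix.single r s a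
  inv := 1 - Matrix.single r s a
  val_inv := by
    have hxx : Matrix.single r s a * Matrix.single r s a = 0 :=
      Matrix.single_mul_single_of_ne _ _ _ _ (Ne.symm h) _
    have : (1 + Matrix.single r s a) * (1 - Matrix.single r s a) =
      1 - Matrix.single r s a * Matrix.single r s a := by noncomm_ring
    rw [this, hxx, sub_zero]
  inv_val := by
    have hxx : Matrix.single r s a * Matrix.single r s a = 0 :=
      Matrix.single_mul_single_of_ne _ _ _ _ (Ne.symm h) _
    have : (1 - Matrix.single r s a) * (1 + Matrix.single r s a) =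
      1 - Matrix.single r s a * Matrix.single r s a := by noncomm_ring
    rw [this, hxx, sub_zero]

theorem el_mem {n : ℕ} {r s : Fin n} (h : r ≠ s) {a : RR hp} (ha : ∀ N, au hp N a = 0) :
    el hp h a ∈ KK hp n := by
  intro N i j
  change au hp N ((1 + Matrix.single r s a) i j) = _
  rw [Matrix.add_apply, map_add, Matrix.one_apply, Matrix.one_apply, Matrix.single_apply]
  have : au hp N (if r = i ∧ s = j then a else 0) = 0 := by
    split_ifs
    · exact ha N
    · exact map_zero _
  rw [this, add_zero]
  split_ifs
  · exact map_one _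
  · exact map_zero _

open scoped commutatorElement

theorem el_mem_derived {n : ℕ} (hn : 3 ≤ n) (k : ℕ) : ∀ (l : List (RR hp)),
    l.length = 2 ^ k → (∀ x ∈ l, ∀ N, au hp N x = 0) → ∀ (r s : Fin n) (h : r ≠ s)
    (hm : el hp h l.prod ∈ KK hp n), (⟨el hp h l.prod, hm⟩ : KK hp n) ∈ derivedSeries (KK hp n) k := by
  induction k with
  | zero => intro l _ _ r s h hm; rw [derivedSeries_zero]; exact Subgroup.mem_top _
  | succ k ih =>
    intro l hl hx r s h hm
    obtain ⟨t, ht⟩ : ∃ t : Fin n, t ≠ r ∧ t ≠ s := by
      have : ((Finset.univ : Finset (Fin n)) \ {r, s}).Nonempty := by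
        rw [← Finset.card_pos]
        have h1 := Finset.le_card_sdiff {r, s} (Finset.univ : Finset (Fin n))
        have h2 : ({r, s} : Finset (Fin n)).card ≤ 2 := Finset.card_le_two
        rw [Finset.card_univ, Fintype.card_fin] at h1
        omega
      obtain ⟨t, ht⟩ := this
      simp only [Finset.mem_sdiff, Finset.mem_univ, Finset.mem_insert, Finset.mem_singleton,
        true_and, not_or] at ht
      exact ⟨t, ht⟩
    have hp0 : ∀ l' : List (RR hp), l' ≠ [] → (∀ x ∈ l', ∀ N, au hp N x = 0) →
        ∀ N, au hp N l'.prod = 0 := by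
      intro l' hne hx' N
      obtain ⟨x, l'', rfl⟩ := List.exists_cons_of_ne_nil hne
      rw [List.prod_cons, map_mul, hx' x (by simp) N, zero_mul]
    have hpos : 0 < 2 ^ k := by positivity
    have hl1 : (l.take (2 ^ k)).length = 2 ^ k := by
      rw [List.length_take, hl, pow_succ]; omega
    have hl2 : (l.drop (2 ^ k)).length = 2 ^ k := by
      rw [List.length_drop, hl, pow_succ]; omega
    have hx1 : ∀ x ∈ l.take (2 ^ k), ∀ N, au hp N x = 0 := fun x hx' =>
      hx x (List.mem_of_mem_take hx')
    have hx2 : ∀ x ∈ l.drop (2 ^ k), ∀ N, au hp N x = 0 := fun x hx' =>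
      hx x (List.mem_of_mem_drop hx')
    have hm1 := el_mem hp (n := n) (Ne.symm ht.1) (hp0 _ (by
      intro h0; rw [h0] at hl1; exact absurd hpos (by rw [← hl1]; exact lt_irrefl 0)) hx1)
    have hm2 := el_mem hp (n := n) ht.2 (hp0 _ (by
      intro h0; rw [h0] at hl2; exact absurd hpos (by rw [← hl2]; exact lt_irrefl 0)) hx2)
    have h1 := ih _ hl1 hx1 r t (Ne.symm ht.1) hm1
    have h2 := ih _ hl2 hx2 t s ht.2 hm2
    rw [derivedSeries_succ]
    have h3 := Subgroup.commutator_mem_commutator h1 h2
    convert h3 using 1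
    apply Subtype.ext
    apply Units.ext
    change _ = (1 + Matrix.single r t (l.take (2 ^ k)).prod) *
      (1 + Matrix.single t s (l.drop (2 ^ k)).prod) * (1 - Matrix.single r t (l.take (2 ^ k)).prod) *
      (1 - Matrix.single t s (l.drop (2 ^ k)).prod)
    rw [single_comm hp h (Ne.symm ht.1) ht.2, List.prod_take_mul_prod_drop]
    rfl

theorem not_solvable {n : ℕ} (hn : 3 ≤ n) : ¬ Group.IsSolvable (KK hp n) := by
  intro hsol
  obtain ⟨k, hk⟩ := (Group.isSolvable_def _).1 hsol
  set N := 2 ^ k with hN
  set l : List (RR hp) := (dat hp N).l.map (fun x => Pi.single N x) with hl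
  have hlen : l.length = 2 ^ k := by rw [hl, List.length_map, (dat hp N).len]
  have hx : ∀ x ∈ l, ∀ M, au hp M x = 0 := by
    intro x hx M
    rw [hl, List.mem_map] at hx
    obtain ⟨y, hy, rfl⟩ := hx
    change (dat hp M).aug ((Pi.single N y : RR hp) M) = 0
    by_cases h : M = N
    · subst h
      rw [Pi.single_eq_same]
      exact (dat hp _).mem y hy
    · rw [Pi.single_eq_of_ne h]; exact map_zero _
  have hprod : l.prod N = (dat hp N).l.prod := by
    have h1 : l.prod N = (l.map (Pi.evalRingHom (fun N => (dat hp N).B) N)).prod := by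
      rw [← map_list_prod]; rfl
    rw [h1, hl, List.map_map]
    congr 1
    conv_rhs => rw [← List.map_id (dat hp N).l]
    apply List.map_congr_left
    intro x _
    simp
  have h01 : (⟨0, by omega⟩ : Fin n) ≠ ⟨1, by omega⟩ := by simp [Fin.ext_iff]
  have hpr : ∀ M, au hp M l.prod = 0 := by
    intro M
    have hne : l ≠ [] := by
      intro h0; rw [h0] at hlen; exact absurd (show 0 < 2 ^ k by positivity) (by rw [← hlen]; exact lt_irrefl 0)
    obtain ⟨x, l'', h⟩ := List.exists_cons_of_ne_nil hne
    rw [h, List.prod_cons, map_mul, hx x (by rw [h]; simp) M, zero_mul]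
  have hm := el_mem hp (n := n) h01 hpr
  have h1 := el_mem_derived hp hn k l hlen hx _ _ h01 hm
  rw [hk, Subgroup.mem_bot] at h1
  have h2 : (1 + Matrix.single (⟨0, by omega⟩ : Fin n) ⟨1, by omega⟩ l.prod :
      Matrix (Fin n) (Fin n) (RR hp)) = 1 := congrArg (fun g : KK hp n => g.1.val) h1
  have h3 : l.prod = 0 := by
    have h4 := congrFun (congrFun h2 ⟨0, by omega⟩) ⟨1, by omega⟩
    rw [Matrix.add_apply, Matrix.single_apply_same, add_eq_left] at h4
    exact h4
  apply (dat hp N).ne
  rw [← hprod, h3]; rfl

end ring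

end Pool.Agent.H45R2.MatVar
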